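import Pool.Agent.Lib_helper68.MC.Defs
import Pool.Agent.Lib_helper89.MC.EN

/-! Project MC (MP_b08f5f_an, microcanonical), block RE: the energy with the cut-off kernel. -/

set_option autoImplicit false

namespace Pool.Agent.Lib_helper68.MC

open MeasureTheory Filter Topology Set
open scoped ComplexConjugate ENNReal NNReal
open Pool.Agent.Lib_helper25.PV (Conf vel Motion centre inertia NC VFlow)
open Pool.Agent.Lib_helper12.HE (ham rad nrm Gam sig shell turn one LimAvg)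

noncomputable section

theorem RE_near_nonneg {r : ℝ} (hr : 0 < r) {x : ℂ} (hx : x ≠ 0) : 0 ≤ near r x := by
  unfold near
  have h : 0 < ‖x‖ := norm_pos_iff.2 hx
  have h1 : Real.log ‖x‖ ≤ Real.log (max ‖x‖ r) := Real.log_le_log h (le_max_left _ _)
  have h2 : 0 ≤ 1 / (4 * Real.pi) := by positivity
  exact mul_nonneg h2 (by linarith)

theorem RE_ker_near (r : ℝ) (x : ℂ) :
    ker r x + near r x = -(1 / (4 * Real.pi)) * Real.log ‖x‖ := by
  unfold ker near
  ring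

/-- the identity `H / N² = (cut-off energy) - (diagonal) + (near part)` -/
theorem RE_ham {N : ℕ} (hN : 1 ≤ N) (z : Conf N) (r : ℝ) (hr : 0 < r) :
    ham z / (N : ℝ) ^ 2 = (∑ i, ∑ j, ker r (z i - z j)) / (N : ℝ) ^ 2 - ker r 0 / N +
      (∑ i, ∑ j ∈ Finset.univ.erase i, near r (z i - z j)) / (N : ℝ) ^ 2 := by
  have hN0 : (N : ℝ) ≠ 0 := by
    have : (0 : ℝ) < N := by exact_mod_cast hN
    exact this.ne'
  have h1 : ham z = ∑ i, ∑ j ∈ Finset.univ.erase i,
      (ker r (z i - z j) + near r (z i - z j)) := by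
    unfold ham
    rw [Finset.mul_sum]
    refine Finset.sum_congr rfl fun i _ => ?_
    rw [Finset.mul_sum]
    refine Finset.sum_congr rfl fun j _ => ?_
    rw [RE_ker_near]
  have h2 : ∀ i, (∑ j, ker r (z i - z j)) =
      ker r 0 + ∑ j ∈ Finset.univ.erase i, ker r (z i - z j) := by
    intro i
    rw [← Finset.add_sum_erase _ _ (Finset.mem_univ i), sub_self]
  have h3 : (∑ i, ∑ j, ker r (z i - z j)) =
      N * ker r 0 + ∑ i, ∑ j ∈ Finset.univ.erase i, ker r (z i - z j) := by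
    simp only [h2]
    rw [Finset.sum_add_distrib, Finset.sum_const, Finset.card_univ, Fintype.card_fin,
      nsmul_eq_mul]
  rw [h1, h3]
  simp only [Finset.sum_add_distrib]
  field_simp
  ring

/-! ### the empirical measure -/

theorem RE_emp_coe {N : ℕ} (hN : 1 ≤ N) (y : Conf N) :
    (emp y : Measure ℂ) = (N : ℝ≥0∞)⁻¹ • ∑ i, Measure.dirac (y i) := by
  have h : 0 < N := by omega
  have h1 : emp y = ⟨(N : ℝ≥0∞)⁻¹ • ∑ i, Measure.dirac (y i), emp_prob h y⟩ := dif_pos h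
  rw [h1]
  rfl

theorem RE_emp_integrable {N : ℕ} (hN : 1 ≤ N) (y : Conf N) (f : ℂ → ℝ) :
    Integrable f (emp y : Measure ℂ) := by
  rw [RE_emp_coe hN]
  refine Integrable.smul_measure ?_ (ENNReal.inv_ne_top.2 (by exact_mod_cast (by omega : N ≠ 0)))
  rw [integrable_finsetSum_measure]
  intro i _
  exact integrable_dirac (by simp)

theorem RE_emp_integral {N : ℕ} (hN : 1 ≤ N) (y : Conf N) (f : ℂ → ℝ) :
    ∫ x, f x ∂(emp y : Measure ℂ) = (∑ i, f (y i)) / N := by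
  rw [RE_emp_coe hN, integral_smul_measure, integral_finsetSum_measure]
  · simp only [integral_dirac, ENNReal.toReal_inv, ENNReal.toReal_natCast, smul_eq_mul]
    rw [div_eq_inv_mul]
  · intro i _
    exact integrable_dirac (by simp)

theorem RE_emp_gen {N : ℕ} (hN : 1 ≤ N) (y : Conf N) {k : ℂ × ℂ → ℝ} (hk : Measurable k) :
    Integrable k ((emp y : Measure ℂ).prod (emp y)) ∧
    ∫ p, k p ∂((emp y : Measure ℂ).prod (emp y)) = (∑ i, ∑ j, k (y i, y j)) / (N : ℝ) ^ 2 := by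
  have hint : Integrable k ((emp y : Measure ℂ).prod (emp y)) := by
    rw [integrable_prod_iff hk.aestronglyMeasurable]
    exact ⟨Eventually.of_forall fun x => RE_emp_integrable hN y _, RE_emp_integrable hN y _⟩
  refine ⟨hint, ?_⟩
  rw [integral_prod _ hint, RE_emp_integral hN]
  simp only [RE_emp_integral hN]
  rw [← Finset.sum_div, div_div, sq]

theorem RE_ker_measurable (r : ℝ) : Measurable (fun p : ℂ × ℂ => ker r (p.1 - p.2)) := by
  unfold ker
  exact measurable_const.mul (Real.measurable_log.comp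
    ((measurable_norm.comp (measurable_fst.sub measurable_snd)).max measurable_const))

theorem RE_emp {N : ℕ} (hN : 1 ≤ N) (y : Conf N) (r : ℝ) :
    ∫ p, ker r (p.1 - p.2) ∂((emp y : Measure ℂ).prod (emp y)) =
      (∑ i, ∑ j, ker r (y i - y j)) / (N : ℝ) ^ 2 :=
  (RE_emp_gen hN y (RE_ker_measurable r)).2

/-! ### continuity -/

/-- the kernel cut off at both ends -/
def RE_cut (r L : ℝ) (x : ℂ) : ℝ := -(1 / (4 * Real.pi)) * Real.log (max (min ‖x‖ L) r)

theorem RE_cut_continuous {r : ℝ} (hr : 0 < r) (L : ℝ) : Continuous (RE_cut r L) := by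
  unfold RE_cut
  refine continuous_const.mul (Continuous.log ?_ ?_)
  · exact (continuous_norm.min continuous_const).max continuous_const
  · intro x
    exact (lt_of_lt_of_le hr (le_max_right _ _)).ne'

theorem RE_ker_continuous {r : ℝ} (hr : 0 < r) : Continuous (ker r) := by
  unfold ker
  refine continuous_const.mul (Continuous.log ?_ ?_)
  · exact continuous_norm.max continuous_const
  · intro x
    exact (lt_of_lt_of_le hr (le_max_right _ _)).ne'

theorem RE_cut_bdd {r : ℝ} (hr : 0 < r) {L : ℝ} (hL : r ≤ L) (x : ℂ) :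
    |RE_cut r L x| ≤ 1 / (4 * Real.pi) * (|Real.log r| + |Real.log L|) := by
  unfold RE_cut
  rw [abs_mul, abs_neg, abs_of_nonneg (by positivity : 0 ≤ 1 / (4 * Real.pi))]
  refine mul_le_mul_of_nonneg_left ?_ (by positivity)
  have h1 : r ≤ max (min ‖x‖ L) r := le_max_right _ _
  have h2 : max (min ‖x‖ L) r ≤ L := max_le (min_le_right _ _) hL
  have h3 := Real.log_le_log hr h1
  have h4 := Real.log_le_log (lt_of_lt_of_le hr h1) h2
  rw [abs_le]
  have h5 := neg_abs_le (Real.log r)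
  have h6 := le_abs_self (Real.log L)
  have h7 := abs_nonneg (Real.log r)
  have h8 := abs_nonneg (Real.log L)
  constructor <;> linarith

theorem RE_cut_diff {r : ℝ} (hr : 0 < r) {L : ℝ} (hL : r ≤ L) (x : ℂ) :
    |ker r x - RE_cut r L x| ≤ 1 / (4 * Real.pi) * (‖x‖ ^ 2 / L ^ 2) := by
  have hL0 : 0 < L := lt_of_lt_of_le hr hL
  unfold ker RE_cut
  rw [← mul_sub, abs_mul, abs_neg, abs_of_nonneg (by positivity : 0 ≤ 1 / (4 * Real.pi))]
  refine mul_le_mul_of_nonneg_left ?_ (by positivity)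
  rcases le_total ‖x‖ L with h | h
  · rw [min_eq_left h, sub_self, abs_zero]
    positivity
  · rw [min_eq_right h, max_eq_left hL, max_eq_left (hL.trans h), ← Real.log_div
      (lt_of_lt_of_le hL0 h).ne' hL0.ne']
    have h1 : 1 ≤ ‖x‖ / L := (one_le_div hL0).2 h
    rw [abs_of_nonneg (Real.log_nonneg h1), ← div_pow]
    have h2 := Real.log_le_sub_one_of_pos (lt_of_lt_of_le one_pos h1)
    nlinarith

theorem RE_KK_int {ν : ProbabilityMeasure ℂ} (hν : ν ∈ KK) :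
    Integrable (fun x : ℂ => ‖x‖ ^ 2) (ν : Measure ℂ) ∧
      ∫ x, ‖x‖ ^ 2 ∂(ν : Measure ℂ) ≤ 1 := by
  have h0 : ∫⁻ x, ‖x‖ₑ ^ 2 ∂(ν : Measure ℂ) ≤ 1 := hν
  have h1 : ∀ x : ℂ, ENNReal.ofReal (‖x‖ ^ 2) = ‖x‖ₑ ^ 2 := by
    intro x
    rw [ENNReal.ofReal_pow (norm_nonneg x), ofReal_norm]
  have hm : AEStronglyMeasurable (fun x : ℂ => ‖x‖ ^ 2) (ν : Measure ℂ) :=
    (continuous_norm.pow 2).aestronglyMeasurable
  have hint : Integrable (fun x : ℂ => ‖x‖ ^ 2) (ν : Measure ℂ) := by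
    refine ⟨hm, ?_⟩
    rw [hasFiniteIntegral_iff_ofReal (Eventually.of_forall fun x => by positivity)]
    simp only [h1]
    exact lt_of_le_of_lt h0 ENNReal.one_lt_top
  refine ⟨hint, ?_⟩
  rw [integral_eq_lintegral_of_nonneg_ae (Eventually.of_forall fun x => by positivity) hm]
  simp only [h1]
  exact ENNReal.toReal_mono ENNReal.one_ne_top h0

theorem RE_KK_prod {ν : ProbabilityMeasure ℂ} (hν : ν ∈ KK) :
    Integrable (fun p : ℂ × ℂ => ‖p.1 - p.2‖ ^ 2) ((ν : Measure ℂ).prod ν) ∧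
      ∫ p : ℂ × ℂ, ‖p.1 - p.2‖ ^ 2 ∂((ν : Measure ℂ).prod ν) ≤ 4 := by
  obtain ⟨hi, hle⟩ := RE_KK_int hν
  have h1 : Integrable (fun p : ℂ × ℂ => ‖p.1‖ ^ 2) ((ν : Measure ℂ).prod ν) :=
    hi.comp_fst _
  have h2 : Integrable (fun p : ℂ × ℂ => ‖p.2‖ ^ 2) ((ν : Measure ℂ).prod ν) :=
    hi.comp_snd _
  have h3 : Integrable (fun p : ℂ × ℂ => 2 * ‖p.1‖ ^ 2 + 2 * ‖p.2‖ ^ 2)
      ((ν : Measure ℂ).prod ν) := (h1.const_mul 2).add (h2.const_mul 2)
  have hpt : ∀ p : ℂ × ℂ, ‖p.1 - p.2‖ ^ 2 ≤ 2 * ‖p.1‖ ^ 2 + 2 * ‖p.2‖ ^ 2 := by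
    intro p
    have := norm_sub_le p.1 p.2
    have h0 := norm_nonneg (p.1 - p.2)
    nlinarith [sq_nonneg (‖p.1‖ - ‖p.2‖)]
  have h4 : Integrable (fun p : ℂ × ℂ => ‖p.1 - p.2‖ ^ 2) ((ν : Measure ℂ).prod ν) := by
    refine h3.mono' ?_ (Eventually.of_forall fun p => ?_)
    · exact ((continuous_norm.comp (continuous_fst.sub continuous_snd)).pow 2).aestronglyMeasurable
    · rw [Real.norm_eq_abs, abs_of_nonneg (by positivity)]
      exact hpt p
  refine ⟨h4, (integral_mono h4 h3 hpt).trans ?_⟩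
  rw [integral_add (h1.const_mul 2) (h2.const_mul 2), integral_const_mul, integral_const_mul]
  have e1 : ∫ p : ℂ × ℂ, ‖p.1‖ ^ 2 ∂((ν : Measure ℂ).prod ν) = ∫ x, ‖x‖ ^ 2 ∂(ν : Measure ℂ) := by
    rw [integral_fun_fst (fun x : ℂ => ‖x‖ ^ 2)]
    simp
  have e2 : ∫ p : ℂ × ℂ, ‖p.2‖ ^ 2 ∂((ν : Measure ℂ).prod ν) = ∫ x, ‖x‖ ^ 2 ∂(ν : Measure ℂ) := by
    rw [integral_fun_snd (fun x : ℂ => ‖x‖ ^ 2)]
    simp
  rw [e1, e2]
  linarith

theorem RE_cut_int {r : ℝ} (hr : 0 < r) {L : ℝ} (hL : r ≤ L) (ν : ProbabilityMeasure ℂ) :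
    Integrable (fun p : ℂ × ℂ => RE_cut r L (p.1 - p.2)) ((ν : Measure ℂ).prod ν) := by
  refine (integrable_const (1 / (4 * Real.pi) * (|Real.log r| + |Real.log L|))).mono' ?_
    (Eventually.of_forall fun p => ?_)
  · exact ((RE_cut_continuous hr L).comp (continuous_fst.sub continuous_snd)).aestronglyMeasurable
  · exact RE_cut_bdd hr hL _

theorem RE_cut_close {r : ℝ} (hr : 0 < r) {L : ℝ} (hL : r ≤ L) {ν : ProbabilityMeasure ℂ}
    (hν : ν ∈ KK) :
    Integrable (fun p : ℂ × ℂ => ker r (p.1 - p.2)) ((ν : Measure ℂ).prod ν) ∧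
    |(∫ p, ker r (p.1 - p.2) ∂((ν : Measure ℂ).prod ν)) -
      ∫ p, RE_cut r L (p.1 - p.2) ∂((ν : Measure ℂ).prod ν)| ≤ 1 / L ^ 2 := by
  have hL0 : 0 < L := lt_of_lt_of_le hr hL
  obtain ⟨hi, hle⟩ := RE_KK_prod hν
  have hc := RE_cut_int hr hL ν
  have hd : Integrable (fun p : ℂ × ℂ => 1 / (4 * Real.pi) * (‖p.1 - p.2‖ ^ 2 / L ^ 2))
      ((ν : Measure ℂ).prod ν) := (hi.div_const _).const_mul _
  have hdiff : Integrable (fun p : ℂ × ℂ => ker r (p.1 - p.2) - RE_cut r L (p.1 - p.2))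
      ((ν : Measure ℂ).prod ν) := by
    refine hd.mono' ?_ (Eventually.of_forall fun p => RE_cut_diff hr hL _)
    exact (((RE_ker_continuous hr).comp (continuous_fst.sub continuous_snd)).sub
      ((RE_cut_continuous hr L).comp (continuous_fst.sub continuous_snd))).aestronglyMeasurable
  have hk : Integrable (fun p : ℂ × ℂ => ker r (p.1 - p.2)) ((ν : Measure ℂ).prod ν) := by
    have := hdiff.add hc
    refine this.congr (Eventually.of_forall fun p => ?_)
    simp only [Pi.add_apply]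
    ring
  refine ⟨hk, ?_⟩
  rw [← integral_sub hk hc]
  refine (norm_integral_le_of_norm_le
    (f := fun p : ℂ × ℂ => ker r (p.1 - p.2) - RE_cut r L (p.1 - p.2)) hd
    (Eventually.of_forall fun p => RE_cut_diff hr hL (p.1 - p.2))).trans ?_
  rw [integral_const_mul, integral_div]
  have hpi : 1 / (4 * Real.pi) ≤ 1 / 4 := by
    refine div_le_div_of_nonneg_left zero_le_one (by norm_num) ?_
    have := Real.pi_gt_three
    linarith
  have h0 : 0 ≤ (∫ p : ℂ × ℂ, ‖p.1 - p.2‖ ^ 2 ∂((ν : Measure ℂ).prod ν)) / L ^ 2 := by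
    refine div_nonneg (integral_nonneg fun p => by positivity) (by positivity)
  calc 1 / (4 * Real.pi) * ((∫ p : ℂ × ℂ, ‖p.1 - p.2‖ ^ 2 ∂((ν : Measure ℂ).prod ν)) / L ^ 2)
      ≤ 1 / 4 * ((∫ p : ℂ × ℂ, ‖p.1 - p.2‖ ^ 2 ∂((ν : Measure ℂ).prod ν)) / L ^ 2) :=
        mul_le_mul_of_nonneg_right hpi h0
    _ ≤ 1 / 4 * (4 / L ^ 2) := by
        refine mul_le_mul_of_nonneg_left ?_ (by norm_num)
        exact div_le_div_of_nonneg_right hle (by positivity)
    _ = 1 / L ^ 2 := by ring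

theorem RE_cont {r : ℝ} (hr : 0 < r) {μ : ProbabilityMeasure ℂ} (hμ : μ ∈ KK) {κ : ℝ}
    (hκ : 0 < κ) : ∃ U : Set (ProbabilityMeasure ℂ), IsOpen U ∧ μ ∈ U ∧ ∀ ν ∈ U, ν ∈ KK →
      |(∫ p, ker r (p.1 - p.2) ∂((ν : Measure ℂ).prod ν)) -
        ∫ p, ker r (p.1 - p.2) ∂((μ : Measure ℂ).prod μ)| ≤ κ := by
  -- choose `L`
  obtain ⟨L, hrL, hL1, hL⟩ : ∃ L : ℝ, r ≤ L ∧ 0 < L ∧ 1 / L ^ 2 ≤ κ / 3 := by
    refine ⟨max r (max 1 (3 / κ)), le_max_left _ _, ?_, ?_⟩
    · exact lt_of_lt_of_le hr (le_max_left _ _)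
    · set L := max r (max 1 (3 / κ)) with hLdef
      have h1 : 1 ≤ L := (le_max_left _ _).trans (le_max_right _ _)
      have h2 : 3 / κ ≤ L := (le_max_right _ _).trans (le_max_right _ _)
      have h3 : L ≤ L ^ 2 := by nlinarith
      rw [div_le_iff₀ (by positivity)]
      have h4 : 3 / κ ≤ L ^ 2 := h2.trans h3
      rw [div_le_iff₀ hκ] at h4
      linarith
  let F : BoundedContinuousFunction (ℂ × ℂ) ℝ :=
    BoundedContinuousFunction.ofNormedAddCommGroup (fun p => RE_cut r L (p.1 - p.2))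
      ((RE_cut_continuous hr L).comp (continuous_fst.sub continuous_snd))
      (1 / (4 * Real.pi) * (|Real.log r| + |Real.log L|)) (fun p => RE_cut_bdd hr hrL _)
  have hcont : Continuous fun ν : ProbabilityMeasure ℂ =>
      ∫ p, F p ∂((ν.prod ν : ProbabilityMeasure (ℂ × ℂ)) : Measure (ℂ × ℂ)) := by
    have h1 : Continuous fun ν : ProbabilityMeasure ℂ => ν.prod ν :=
      ProbabilityMeasure.continuous_prod.comp (continuous_id.prodMk continuous_id)
    exact (ProbabilityMeasure.continuous_integral_boundedContinuousFunction F).comp h1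
  refine ⟨{ν | |(∫ p, F p ∂((ν.prod ν : ProbabilityMeasure (ℂ × ℂ)) : Measure (ℂ × ℂ))) -
      ∫ p, F p ∂((μ.prod μ : ProbabilityMeasure (ℂ × ℂ)) : Measure (ℂ × ℂ))| < κ / 3},
    isOpen_lt ((hcont.sub continuous_const).abs) continuous_const, ?_, ?_⟩
  · change |_ - _| < κ / 3
    rw [sub_self, abs_zero]
    positivity
  · intro ν hν hνK
    have h1 : |(∫ p, RE_cut r L (p.1 - p.2) ∂((ν : Measure ℂ).prod ν)) -
      ∫ p, RE_cut r L (p.1 - p.2) ∂((μ : Measure ℂ).prod μ)| < κ / 3 := hν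
    have h2 := (RE_cut_close hr hrL hνK).2
    have h3 := (RE_cut_close hr hrL hμ).2
    rw [abs_sub_comm] at h3
    have h4 := abs_sub_le (∫ p, ker r (p.1 - p.2) ∂((ν : Measure ℂ).prod ν))
      (∫ p, RE_cut r L (p.1 - p.2) ∂((ν : Measure ℂ).prod ν))
      (∫ p, ker r (p.1 - p.2) ∂((μ : Measure ℂ).prod μ))
    have h5 := abs_sub_le (∫ p, RE_cut r L (p.1 - p.2) ∂((ν : Measure ℂ).prod ν))
      (∫ p, RE_cut r L (p.1 - p.2) ∂((μ : Measure ℂ).prod μ))
      (∫ p, ker r (p.1 - p.2) ∂((μ : Measure ℂ).prod μ))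
    linarith

/-! ### the cut-off energy of a density -/

theorem RE_abs_mul (a : ℝ) {c : ℝ} (hc : 0 ≤ c) : |a * c| = |a| * c := by
  rw [abs_mul, abs_of_nonneg hc]

theorem RE_prod_integral {ρ : ℂ → ℝ} (h : Dens ρ) (k : ℂ × ℂ → ℝ) :
    ∫ p, k p ∂((wd ρ).prod (wd ρ)) = ∫ p : ℂ × ℂ, k p * (ρ p.1 * ρ p.2) := by
  have hm : Measurable fun x => ENNReal.ofReal (ρ x) := h.meas.ennreal_ofReal
  unfold wd
  rw [prod_withDensity hm hm, integral_withDensity_eq_integral_toReal_smul, ← Measure.volume_eq_prod]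
  · refine integral_congr_ae (Eventually.of_forall fun p => ?_)
    beta_reduce
    rw [ENNReal.toReal_mul, ENNReal.toReal_ofReal (h.nonneg _), ENNReal.toReal_ofReal (h.nonneg _),
      smul_eq_mul, mul_comm]
  · exact (hm.comp measurable_fst).mul (hm.comp measurable_snd)
  · exact Eventually.of_forall fun p => ENNReal.mul_lt_top ENNReal.ofReal_lt_top
      ENNReal.ofReal_lt_top

theorem RE_ae_ne : ∀ᵐ p : ℂ × ℂ, p.1 - p.2 ≠ 0 := by
  have hm : MeasurableSet {p : ℂ × ℂ | p.1 - p.2 ≠ 0} :=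
    (isOpen_ne_fun (continuous_fst.sub continuous_snd) continuous_const).measurableSet
  rw [Measure.volume_eq_prod, Measure.ae_prod_iff_ae_ae hm]
  refine Eventually.of_forall fun x => ?_
  rw [ae_iff]
  refine measure_mono_null (t := {x}) (fun y hy => ?_) (measure_singleton x)
  simp only [mem_ofPred_eq, not_not] at hy
  rw [mem_singleton_iff]
  exact (sub_eq_zero.1 hy).symm

theorem RE_pair_int {ρ : ℂ → ℝ} (h : Dens ρ) :
    Integrable fun p : ℂ × ℂ => ρ p.1 * ρ p.2 := by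
  have := h.int.mul_prod h.int
  rw [Measure.volume_eq_prod]
  exact this

theorem RE_ker_abs {r : ℝ} (x : ℂ) : |ker r x| ≤ |Real.log r| + |Real.log ‖x‖| := by
  unfold ker
  rw [abs_mul, abs_neg, abs_of_nonneg (by positivity : 0 ≤ 1 / (4 * Real.pi))]
  have hpi : 1 / (4 * Real.pi) ≤ 1 := by
    rw [div_le_one (by positivity)]
    have := Real.pi_gt_three
    linarith
  have h1 : |Real.log (max ‖x‖ r)| ≤ |Real.log r| + |Real.log ‖x‖| := by
    rcases le_total ‖x‖ r with h | h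
    · rw [max_eq_right h]
      have := abs_nonneg (Real.log ‖x‖)
      linarith
    · rw [max_eq_left h]
      have := abs_nonneg (Real.log r)
      linarith
  calc 1 / (4 * Real.pi) * |Real.log (max ‖x‖ r)| ≤ 1 * |Real.log (max ‖x‖ r)| :=
        mul_le_mul_of_nonneg_right hpi (abs_nonneg _)
    _ ≤ |Real.log r| + |Real.log ‖x‖| := by rw [one_mul]; exact h1

theorem RE_ker_meas (r : ℝ) : Measurable (fun p : ℂ × ℂ => ker r (p.1 - p.2)) := by
  unfold ker
  exact measurable_const.mul (Real.measurable_log.comp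
    ((measurable_norm.comp (measurable_fst.sub measurable_snd)).max measurable_const))

theorem RE_pair_meas {ρ : ℂ → ℝ} (h : Dens ρ) :
    Measurable (fun p : ℂ × ℂ => ρ p.1 * ρ p.2) :=
  (h.meas.comp measurable_fst).mul (h.meas.comp measurable_snd)

theorem RE_ker_int {ρ : ℂ → ℝ} (h : Dens ρ) (r : ℝ) :
    Integrable fun p : ℂ × ℂ => ker r (p.1 - p.2) * (ρ p.1 * ρ p.2) := by
  have h1 : Integrable fun p : ℂ × ℂ => |Real.log r| * (ρ p.1 * ρ p.2) +
      |Real.log ‖p.1 - p.2‖ * (ρ p.1 * ρ p.2)| := ((RE_pair_int h).const_mul _).add (EN_int h h).abs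
  refine h1.mono' ((RE_ker_meas r).mul (RE_pair_meas h)).aestronglyMeasurable
    (Eventually.of_forall fun p => ?_)
  have h2 : 0 ≤ ρ p.1 * ρ p.2 := mul_nonneg (h.nonneg _) (h.nonneg _)
  rw [Real.norm_eq_abs, RE_abs_mul _ h2, RE_abs_mul _ h2, ← add_mul]
  exact mul_le_mul_of_nonneg_right (RE_ker_abs _) h2

theorem RE_En_eq (ρ : ℂ → ℝ) : En ρ ρ = ∫ p : ℂ × ℂ,
    (-(1 / (4 * Real.pi)) * Real.log ‖p.1 - p.2‖) * (ρ p.1 * ρ p.2) := by
  unfold En
  rw [← integral_const_mul]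
  refine integral_congr_ae (Eventually.of_forall fun p => ?_)
  beta_reduce
  ring

theorem RE_En_int {ρ : ℂ → ℝ} (h : Dens ρ) : Integrable fun p : ℂ × ℂ =>
    (-(1 / (4 * Real.pi)) * Real.log ‖p.1 - p.2‖) * (ρ p.1 * ρ p.2) := by
  refine ((EN_int h h).const_mul (-(1 / (4 * Real.pi)))).congr
    (Eventually.of_forall fun p => ?_)
  beta_reduce
  ring

theorem RE_le {ρ : ℂ → ℝ} (h : Dens ρ) {r : ℝ} (hr : 0 < r) :
    ∫ p, ker r (p.1 - p.2) ∂((wd ρ).prod (wd ρ)) ≤ En ρ ρ := by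
  rw [RE_prod_integral h, RE_En_eq]
  refine integral_mono_ae (RE_ker_int h r) (RE_En_int h) ?_
  filter_upwards [RE_ae_ne] with p hp
  have h2 : 0 ≤ ρ p.1 * ρ p.2 := mul_nonneg (h.nonneg _) (h.nonneg _)
  refine mul_le_mul_of_nonneg_right ?_ h2
  unfold ker
  have h3 : Real.log ‖p.1 - p.2‖ ≤ Real.log (max ‖p.1 - p.2‖ r) :=
    Real.log_le_log (norm_pos_iff.2 hp) (le_max_left _ _)
  have h4 : 0 ≤ 1 / (4 * Real.pi) := by positivity
  nlinarith [mul_le_mul_of_nonneg_left h3 h4]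

theorem RE_lim {ρ : ℂ → ℝ} (h : Dens ρ) {κ : ℝ} (hκ : 0 < κ) : ∃ r : ℝ, 0 < r ∧ r ≤ 1 ∧
    En ρ ρ - κ ≤ ∫ p, ker r (p.1 - p.2) ∂((wd ρ).prod (wd ρ)) := by
  have hr0 : ∀ n : ℕ, (0 : ℝ) < 1 / ((n : ℝ) + 1) := fun n => Nat.one_div_pos_of_nat
  have hr1 : ∀ n : ℕ, 1 / ((n : ℝ) + 1) ≤ 1 := by
    intro n
    rw [div_le_one (by positivity)]
    have : (0 : ℝ) ≤ n := Nat.cast_nonneg n
    linarith
  have hlim : Tendsto (fun n : ℕ => ∫ p : ℂ × ℂ,
      ker (1 / ((n : ℝ) + 1)) (p.1 - p.2) * (ρ p.1 * ρ p.2)) atTop (𝓝 (En ρ ρ)) := by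
    rw [RE_En_eq]
    refine tendsto_integral_of_dominated_convergence
      (fun p => |Real.log ‖p.1 - p.2‖ * (ρ p.1 * ρ p.2)|) ?_ (EN_int h h).abs ?_ ?_
    · intro n
      exact ((RE_ker_meas _).mul (RE_pair_meas h)).aestronglyMeasurable
    · intro n
      filter_upwards [RE_ae_ne] with p hp
      have h2 : 0 ≤ ρ p.1 * ρ p.2 := mul_nonneg (h.nonneg _) (h.nonneg _)
      rw [Real.norm_eq_abs, RE_abs_mul _ h2, RE_abs_mul _ h2]
      refine mul_le_mul_of_nonneg_right ?_ h2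
      unfold ker
      rw [abs_mul, abs_neg, abs_of_nonneg (by positivity : 0 ≤ 1 / (4 * Real.pi))]
      have hpi : 1 / (4 * Real.pi) ≤ 1 := by
        rw [div_le_one (by positivity)]
        have := Real.pi_gt_three
        linarith
      have h5 : |Real.log (max ‖p.1 - p.2‖ (1 / ((n : ℝ) + 1)))| ≤ |Real.log ‖p.1 - p.2‖| := by
        rcases le_total ‖p.1 - p.2‖ (1 / ((n : ℝ) + 1)) with h' | h'
        · rw [max_eq_right h', abs_of_nonpos (Real.log_nonpos (hr0 n).le (hr1 n)),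
            abs_of_nonpos (Real.log_nonpos (norm_nonneg _) (h'.trans (hr1 n)))]
          have := Real.log_le_log (norm_pos_iff.2 hp) h'
          linarith
        · rw [max_eq_left h']
      calc 1 / (4 * Real.pi) * |Real.log (max ‖p.1 - p.2‖ (1 / ((n : ℝ) + 1)))|
          ≤ 1 * |Real.log (max ‖p.1 - p.2‖ (1 / ((n : ℝ) + 1)))| :=
            mul_le_mul_of_nonneg_right hpi (abs_nonneg _)
        _ ≤ |Real.log ‖p.1 - p.2‖| := by rw [one_mul]; exact h5
    · filter_upwards [RE_ae_ne] with p hp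
      have hpos : 0 < ‖p.1 - p.2‖ := norm_pos_iff.2 hp
      have hev : ∀ᶠ n : ℕ in atTop, 1 / ((n : ℝ) + 1) < ‖p.1 - p.2‖ :=
        tendsto_one_div_add_atTop_nhds_zero_nat.eventually (gt_mem_nhds hpos)
      refine tendsto_const_nhds.congr' ?_
      filter_upwards [hev] with n hn
      unfold ker
      rw [max_eq_left hn.le]
  have hev := hlim.eventually (lt_mem_nhds (sub_lt_self (En ρ ρ) hκ))
  obtain ⟨n, hn⟩ := hev.exists
  refine ⟨1 / ((n : ℝ) + 1), hr0 n, hr1 n, ?_⟩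
  rw [RE_prod_integral h]
  exact hn.le

end

end Pool.Agent.Lib_helper68.MC
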